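import Pool.Agent.X297.PH.Example

/-!
# Subspaces whose spherical traces are null for Herglotz measures
-/

open MeasureTheory

open Pool.Agent.X297.PH

namespace Pool.Agent.Results.MP_ab521b_an.NullSubspaces

/-- For `n ≥ 2` a complex or real linear subspace `V` of `ℂ ^ n` is `P_H`-null if and only if
`V ≠ ℂ ^ n`; the largest dimensions of null subspaces are `n - 1` and `2 n - 1`. A proper real
subspace is null even for all the measures of `P_E`. -/
theorem result (n : ℕ) (hn : 2 ≤ n) :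
    IsGreatest {d : ℕ | ∃ V : Submodule ℂ (Cn n), IsNull (V : Set (Cn n)) ∧
      Module.finrank ℂ V = d} (n - 1) ∧
    IsGreatest {d : ℕ | ∃ V : Submodule ℝ (Cn n), IsNull (V : Set (Cn n)) ∧
      Module.finrank ℝ V = d} (2 * n - 1) ∧
    (∀ V : Submodule ℂ (Cn n), IsNull (V : Set (Cn n)) ↔ V ≠ ⊤) ∧
    (∀ V : Submodule ℝ (Cn n), IsNull (V : Set (Cn n)) ↔ V ≠ ⊤) ∧
    (∀ μ : Measure (S n), IsPE μ → ∀ V : Submodule ℝ (Cn n), V ≠ ⊤ → μ {u | u.1 ∈ V} = 0) := by
  have hE : ∀ μ : Measure (S n), IsPE μ → ∀ V : Submodule ℝ (Cn n), V ≠ ⊤ →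
      μ {u | u.1 ∈ V} = 0 := fun μ hμ V hV => null_real hn hμ hV
  have htop : ∀ W : Set (Cn n), W = Set.univ → ¬ IsNull W := by
    intro W hW h
    have h1 := h _ (surf_isPH (n := n) (by omega))
    have := isProb_surf (n := n) (by omega)
    rw [hW] at h1
    simp only [Set.mem_univ, Set.ofPred_true, measure_univ] at h1
    exact one_ne_zero h1
  have hR : ∀ V : Submodule ℝ (Cn n), IsNull (V : Set (Cn n)) ↔ V ≠ ⊤ := by
    intro V
    constructor
    · intro h hV
      refine htop _ ?_ h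
      rw [hV]
      rfl
    · intro hV μ hμ
      exact hE μ hμ.1 V hV
  have hC : ∀ V : Submodule ℂ (Cn n), IsNull (V : Set (Cn n)) ↔ V ≠ ⊤ := by
    intro V
    have h1 := hR (V.restrictScalars ℝ)
    rw [Ne, Submodule.restrictScalars_eq_top_iff] at h1
    exact h1
  have hdC : Module.finrank ℂ (Cn n) = n := finrank_euclideanSpace_fin
  have hdR : Module.finrank ℝ (Cn n) = 2 * n := by
    rw [finrank_real_of_complex, hdC]
  have hnt := nontrivial_Cn (n := n) (by omega)
  obtain ⟨v, hv⟩ := exists_ne (0 : Cn n)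
  refine ⟨⟨?_, ?_⟩, ⟨?_, ?_⟩, hC, hR, hE⟩
  · have : Fact (Module.finrank ℂ (Cn n) = n - 1 + 1) := ⟨by omega⟩
    have h1 : Module.finrank ℂ (Submodule.span ℂ {v})ᗮ = n - 1 :=
      Submodule.finrank_orthogonal_span_singleton hv
    refine ⟨(Submodule.span ℂ {v})ᗮ, (hC _).2 ?_, h1⟩
    intro h
    rw [h, finrank_top] at h1
    omega
  · rintro d ⟨V, hV, rfl⟩
    have h1 := Submodule.finrank_lt ((hC V).1 hV)
    omega
  · let _ : InnerProductSpace ℝ (Cn n) := InnerProductSpace.complexToReal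
    have : Fact (Module.finrank ℝ (Cn n) = 2 * n - 1 + 1) := ⟨by omega⟩
    have h1 : Module.finrank ℝ (Submodule.span ℝ {v})ᗮ = 2 * n - 1 :=
      Submodule.finrank_orthogonal_span_singleton hv
    refine ⟨(Submodule.span ℝ {v})ᗮ, (hR _).2 ?_, h1⟩
    intro h
    rw [h, finrank_top] at h1
    omega
  · rintro d ⟨V, hV, rfl⟩
    have h1 := Submodule.finrank_lt ((hR V).1 hV)
    omega

end Pool.Agent.Results.MP_ab521b_an.NullSubspaces
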